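import Pool.Agent.KS6_95.EH.Prod

set_option autoImplicit false

/-!
Infinitely many epiRegular groups for which every regular language that represents all nontrivial
elements represents some element infinitely often; in particular they have no rational cross
section.
-/

namespace Pool.Agent.Results.MP_cfc732_al.NoFiniteCover

open Pool.Agent.Helper25.HTwo Pool.Agent.KS6_95.EH

universe u

/-- `G` is epiRegular: for some finite `X ⊆ G` that generates `G` as a monoid there is a regular
language of nonempty words over `X` whose image under evaluation is `G ∖ {1}`. -/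
def EpiRegular (G : Type u) [Group G] : Prop :=
  ∃ X : Finset G, Submonoid.closure (X : Set G) = ⊤ ∧
    ∃ L : Language X, L.IsRegular ∧ [] ∉ L ∧ evl X '' {w | w ∈ L} = {g : G | g ≠ 1}

/-- `G` has a rational cross section: for some finite `X ⊆ G` that generates `G` as a monoid there
is a regular language over `X` that evaluation maps bijectively onto `G`. -/
def HasRationalCrossSection (G : Type u) [Group G] : Prop :=
  ∃ X : Finset G, Submonoid.closure (X : Set G) = ⊤ ∧
    ∃ L : Language X, L.IsRegular ∧ Set.BijOn (evl X) {w | w ∈ L} Set.univ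

/-- For some finite `X ⊆ G` there is a regular language over `X` which represents every nontrivial
element of `G` (possibly also `1`) and represents every element only finitely often. -/
def HasFiniteToOneCover (G : Type u) [Group G] : Prop :=
  ∃ (X : Finset G) (L : Language X), L.IsRegular ∧ (∀ g : G, g ≠ 1 → ∃ w ∈ L, evl X w = g) ∧
    ∀ g : G, {w | w ∈ L ∧ evl X w = g}.Finite

theorem cover_of_section {G : Type u} [Group G] (h : HasRationalCrossSection G) :
    HasFiniteToOneCover G := by
  obtain ⟨X, -, L, hL, hbij⟩ := h
  refine ⟨X, L, hL, fun g _ => ?_, fun g => ?_⟩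
  · obtain ⟨w, hw, hw'⟩ := hbij.surjOn (Set.mem_univ g)
    exact ⟨w, hw, hw'⟩
  · refine Set.Subsingleton.finite ?_
    rintro w ⟨hw, hw'⟩ v ⟨hv, hv'⟩
    exact hbij.injOn hw hv (hw'.trans hv'.symm)

/-- Let `H2` be Houghton's group of the permutations of `ℤ` which are a translation outside of a
finite set.

1. Let `f : G → H2` be a homomorphism with torsion kernel whose image contains all permutations of
   finite support. Then `G` has no regular language (over any finite alphabet) which represents
   all nontrivial elements and each element only finitely often; in particular `G` has no rational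
   cross section.
2. For every finite group `K` the group `H2 × K` is finitely generated and epiRegular, and 1.
   applies to it.
3. The groups `H2 × C_m`, `m ≥ 1`, are pairwise not isomorphic. -/
theorem result :
    (∀ (G : Type u) [Group G] (f : G →* H2), (∀ g, f g = 1 → IsOfFinOrder g) →
      (∀ h : H2, {n : ℤ | h.1 n ≠ n}.Finite → ∃ g, f g = h) →
        ¬ HasFiniteToOneCover G ∧ ¬ HasRationalCrossSection G) ∧
    (∀ (K : Type) [Group K] [Finite K], Group.FG (H2 × K) ∧ EpiRegular (H2 × K) ∧
      ¬ HasFiniteToOneCover (H2 × K) ∧ ¬ HasRationalCrossSection (H2 × K)) ∧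
    (∀ m n : ℕ, 0 < m → 0 < n →
      Nonempty ((H2 × Multiplicative (ZMod m)) ≃* (H2 × Multiplicative (ZMod n))) → m = n) := by
  have key : ∀ (G : Type u) [Group G] (f : G →* H2), (∀ g, f g = 1 → IsOfFinOrder g) →
      (∀ h : H2, {n : ℤ | h.1 n ≠ n}.Finite → ∃ g, f g = h) → ¬ HasFiniteToOneCover G := by
    rintro G _ f hf himg ⟨X, L, hL, h1, h2⟩
    obtain ⟨g, hg⟩ := infinite_fibre f hf himg X L hL h1
    exact hg (h2 g)
  refine ⟨fun G _ f hf himg => ⟨key G f hf himg, fun h => key G f hf himg (cover_of_section h)⟩,
    ?_, ?_⟩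
  · intro K _ _
    have hno : ¬ HasFiniteToOneCover (H2 × K) := by
      rintro ⟨X, L, hL, h1, h2⟩
      obtain ⟨g, hg⟩ := infinite_fibre (MonoidHom.fst H2 K) (by
        rintro ⟨h, k⟩ hk
        have hk : h = 1 := hk
        subst hk
        rw [isOfFinOrder_iff_pow_eq_one]
        obtain ⟨r, hr, hr'⟩ := isOfFinOrder_iff_pow_eq_one.1 (isOfFinOrder_of_finite k)
        exact ⟨r, hr, by rw [Prod.pow_mk, one_pow, hr']; rfl⟩) (fun h _ => ⟨(h, 1), rfl⟩)
        X L hL h1
      exact hg (h2 g)
    refine ⟨?_, ?_, hno, fun h => hno (cover_of_section h)⟩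
    · rw [Group.fg_iff_monoid_fg]
      exact ⟨⟨alphK K, alphK_top⟩⟩
    · obtain ⟨L, h1, h2, h3⟩ := exists_language (K := K)
      exact ⟨alphK K, alphK_top, L, h1, h2, h3⟩
  · rintro m n hm hn ⟨e⟩
    have : NeZero m := ⟨hm.ne'⟩
    have : NeZero n := ⟨hn.ne'⟩
    have h1 := card_center_eq e
    have h2 : ∀ k : ℕ, Nat.card (Subgroup.center (Multiplicative (ZMod k))) = k := by
      intro k
      rw [CommGroup.center_eq_top, Nat.card_congr Subgroup.topEquiv.toEquiv]
      exact Nat.card_zmod k
    rwa [h2, h2] at h1

end Pool.Agent.Results.MP_cfc732_al.NoFiniteCover
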